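import Pool.Agent.H95.T4.Act
import Pool.Agent.H46.PR.Two
import Pool.Agent.H50.K2.Piece
import Pool.Agent.H2.GEN.AttG

/-!
# Active digits separate the copies

`col_law`: if two copies over `G` have near digits with probability more than `δ`, then on an event of
mass at least `δ / 2` the digits have few values given `G`. `ActI.sep`: when the digits `(P, Q)` of a
velocity are active, two copies over any data which are known from the exact point and from the near
digits of all velocities have different digits at `Q`, off mass `δ`.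
-/

set_option autoImplicit false

namespace Pool.T4A95

open Finset Real
open Pool.Agent.H49.Ent Pool.Agent.H32.Dense Pool.STK Pool.KA Pool.KSAT Pool.K2S Pool.PB Pool.S6C
open Pool.GEN
open Pool.PR46 (P1)
open Pool.CHT (big bas_ev)

section law

variable {Ω Γ : Type} [Fintype Ω] {p : Ω → ℝ}

theorem cond_supp (h0 : ∀ ω, 0 ≤ p ω) {B : Ω → Prop} {ω : Ω}
    (hω : 0 < Pool.Agent.H49.Ent.cond p B True ω) : 0 < p ω ∧ B ω := by
  unfold Pool.Agent.H49.Ent.cond at hω
  by_cases h1 : B ω = True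
  · rw [if_pos h1] at hω
    refine ⟨?_, of_eq_true h1⟩
    rcases (h0 ω).eq_or_lt with h2 | h2
    · rw [← h2, zero_div] at hω
      exact absurd hω (lt_irrefl _)
    · exact h2
  · rw [if_neg h1] at hω
    exact absurd hω (lt_irrefl _)

theorem cond_pos {B : Ω → Prop} (hB : 0 < Pe p B) {ω : Ω} (h : 0 < p ω) (hω : B ω) :
    0 < Pool.Agent.H49.Ent.cond p B True ω := by
  unfold Pool.Agent.H49.Ent.cond
  rw [if_pos (eq_true hω)]
  exact div_pos h hB

open Classical in
/-- The mass of the copies over `G ω` with digits near `D ω`. -/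
noncomputable def nrm (p : Ω → ℝ) (G : Ω → Γ) (D : Ω → ℤ) (K : ℕ) (g : Γ) (d : ℤ) : ℝ :=
  ∑ ω, if G ω = g ∧ |(d : ℝ) - D ω| ≤ K then p ω else 0

theorem nrm_nonneg (h0 : ∀ ω, 0 ≤ p ω) (G : Ω → Γ) (D : Ω → ℤ) (K : ℕ) (g : Γ) (d : ℤ) :
    0 ≤ nrm p G D K g d := by
  unfold nrm
  refine Finset.sum_nonneg fun ω _ => ?_
  split_ifs
  · exact h0 ω
  · exact le_rfl

theorem nrm_le (h0 : ∀ ω, 0 ≤ p ω) (G : Ω → Γ) (D : Ω → ℤ) (K : ℕ) (g : Γ) (d : ℤ) :
    nrm p G D K g d ≤ law p G g := by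
  unfold nrm law
  refine Finset.sum_le_sum fun ω _ => ?_
  by_cases h1 : G ω = g
  · rw [if_pos h1]
    split_ifs
    · exact le_rfl
    · exact h0 ω
  · rw [if_neg h1, if_neg fun h => h1 h.1]

/-- Many values cannot all have many near copies. -/
theorem nrm_sum (h0 : ∀ ω, 0 ≤ p ω) (G : Ω → Γ) (D : Ω → ℤ) (K : ℕ) (g : Γ) (S : Finset ℤ) :
    ∑ d ∈ S, nrm p G D K g d ≤ (2 * K + 1 : ℕ) * law p G g := by
  classical
  unfold nrm law
  rw [Finset.sum_comm, Finset.mul_sum]
  refine Finset.sum_le_sum fun ω _ => ?_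
  by_cases h1 : G ω = g
  · rw [if_pos h1]
    have h2 : ∑ d ∈ S, (if G ω = g ∧ |(d : ℝ) - D ω| ≤ K then p ω else 0) =
        ((S.filter fun d : ℤ => |(d : ℝ) - D ω| ≤ K).card : ℝ) * p ω := by
      rw [← Finset.sum_filter, Finset.sum_const, nsmul_eq_mul]
      congr 3
      ext d
      simp only [Finset.mem_filter]
      exact ⟨fun h => ⟨h.1, h.2.2⟩, fun h => ⟨h.1, h1, h.2⟩⟩
    rw [h2]
    refine mul_le_mul_of_nonneg_right ?_ (h0 ω)
    have h3 : (S.filter fun d : ℤ => |(d : ℝ) - D ω| ≤ K) ⊆ Finset.Icc (D ω - K) (D ω + K) := by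
      intro d hd
      rw [Finset.mem_filter] at hd
      have h4 := abs_le.1 hd.2
      rw [Finset.mem_Icc]
      constructor
      · have : ((D ω - K : ℤ) : ℝ) ≤ d := by push_cast; linarith [h4.1]
        exact_mod_cast this
      · have : (d : ℝ) ≤ ((D ω + K : ℤ) : ℝ) := by push_cast; linarith [h4.2]
        exact_mod_cast this
    have h5 := Finset.card_le_card h3
    rw [Int.card_Icc] at h5
    exact_mod_cast h5.trans (by omega)
  · rw [if_neg h1, mul_zero]
    refine (Finset.sum_eq_zero fun d _ => if_neg fun h => h1 h.1).le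

/-- The mass of the near pairs. -/
theorem P1_near (G : Ω → Γ) (D : Ω → ℤ) (K : ℕ) :
    Pe (P1 p G) (fun v => |(D v.1 : ℝ) - D v.2| ≤ K) =
      ∑ ω, p ω * (nrm p G D K (G ω) (D ω) / law p G (G ω)) := by
  classical
  rw [Pe_eq, Fintype.sum_prod_type]
  refine Finset.sum_congr rfl fun ω _ => ?_
  unfold nrm P1 glue
  rw [Finset.sum_div, Finset.mul_sum]
  refine Finset.sum_congr rfl fun ω' _ => ?_
  dsimp only
  by_cases h1 : G ω = G ω'
  · by_cases h2 : |(D ω : ℝ) - D ω'| ≤ K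
    · rw [if_pos h2, if_pos h1, if_pos ⟨h1.symm, h2⟩]
      ring
    · rw [if_neg h2, if_neg fun h => h2 h.2, zero_div, mul_zero]
  · rw [if_neg (fun h : G ω' = G ω ∧ |(D ω : ℝ) - D ω'| ≤ K => h1 h.1.symm), zero_div, mul_zero,
      if_neg h1]
    split_ifs <;> rfl

/-- **Many near pairs give a large part with few values.** -/
theorem col_law (hp : IsLaw p) (G : Ω → Γ) (D : Ω → ℤ) (K : ℕ) {δ : ℝ} (hδ : 0 < δ)
    (h : δ < Pe (P1 p G) (fun v => |(D v.1 : ℝ) - D v.2| ≤ K)) :
    ∃ B : Ω → Prop, δ / 2 ≤ Pe p B ∧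
      CH (Pool.Agent.H49.Ent.cond p B True) D G ≤ Real.log ((2 * K + 1) * (2 / δ)) := by
  classical
  have h0 := hp.nonneg
  obtain ⟨B, hB⟩ : ∃ B : Ω → Prop, B = fun ω =>
      δ / 2 * law p G (G ω) ≤ nrm p G D K (G ω) (D ω) := ⟨_, rfl⟩
  have hm : δ / 2 ≤ Pe p B := by
    rw [P1_near] at h
    have h1 : ∑ ω, p ω * (nrm p G D K (G ω) (D ω) / law p G (G ω)) ≤
        ∑ ω, ((if B ω then p ω else 0) + p ω * (δ / 2)) := by
      refine Finset.sum_le_sum fun ω _ => ?_
      rcases (h0 ω).eq_or_lt with h2 | h2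
      · rw [← h2]
        split_ifs <;> simp
      · have h3 := law_pos h0 G h2
        by_cases h4 : B ω
        · rw [if_pos h4]
          have h5 : nrm p G D K (G ω) (D ω) / law p G (G ω) ≤ 1 := by
            rw [div_le_one h3]
            exact nrm_le h0 G D K (G ω) (D ω)
          nlinarith
        · rw [if_neg h4, zero_add]
          have h5 : nrm p G D K (G ω) (D ω) / law p G (G ω) ≤ δ / 2 := by
            rw [div_le_iff₀ h3]
            rw [hB] at h4
            exact (not_le.1 h4).le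
          exact mul_le_mul_of_nonneg_left h5 h2.le
    rw [Finset.sum_add_distrib, ← Finset.sum_mul, hp.sum_one, one_mul, ← Pe_eq] at h1
    linarith
  refine ⟨B, hm, ?_⟩
  have hB0 : 0 < Pe p B := by linarith
  have hq := isLaw_cond hp hB0
  obtain ⟨FF, hFF⟩ : ∃ FF : Γ → Finset ℤ, FF = fun g =>
      (Finset.univ.filter fun ω => 0 < p ω ∧ B ω ∧ G ω = g).image D := ⟨_, rfl⟩
  have hsup : ∀ ω, 0 < Pool.Agent.H49.Ent.cond p B True ω → 0 < p ω ∧ B ω :=
    fun ω hω => cond_supp h0 hω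
  refine (CH_le_card hq.nonneg hq.sum_one D G FF (fun ω hω => ?_)).trans ?_
  · rw [hFF]
    obtain ⟨h1, h2⟩ := hsup ω hω
    exact Finset.mem_image_of_mem _ (Finset.mem_filter.2 ⟨Finset.mem_univ _, h1, h2, rfl⟩)
  · have key : ∀ ω, 0 < Pool.Agent.H49.Ent.cond p B True ω →
        Real.log ((FF (G ω)).card) ≤ Real.log ((2 * K + 1) * (2 / δ)) := by
      intro ω hω
      obtain ⟨h1, h2⟩ := hsup ω hω
      have h3 := law_pos h0 G h1
      have h4 : 0 < (FF (G ω)).card := by
        rw [Finset.card_pos, hFF]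
        exact ⟨D ω, Finset.mem_image_of_mem _
          (Finset.mem_filter.2 ⟨Finset.mem_univ _, h1, h2, rfl⟩)⟩
      refine Real.log_le_log (by exact_mod_cast h4) ?_
      have h5 := nrm_sum h0 G D K (G ω) (FF (G ω))
      have h6 : ((FF (G ω)).card : ℝ) * (δ / 2 * law p G (G ω)) ≤
          ∑ d ∈ FF (G ω), nrm p G D K (G ω) d := by
        rw [← nsmul_eq_mul]
        refine Finset.card_nsmul_le_sum _ _ _ fun d hd => ?_
        rw [hFF, Finset.mem_image] at hd
        obtain ⟨ω', h7, h8⟩ := hd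
        rw [Finset.mem_filter] at h7
        obtain ⟨-, h9, h10, h11⟩ := h7
        rw [hB] at h10
        rw [← h11, ← h8]
        exact h10
      push_cast at h5
      have h7 : ((FF (G ω)).card : ℝ) * (δ / 2) ≤ 2 * K + 1 := by
        have h8 : ((FF (G ω)).card : ℝ) * (δ / 2) * law p G (G ω) ≤
            (2 * K + 1) * law p G (G ω) := by
          refine le_trans (le_of_eq ?_) (h6.trans h5)
          ring
        exact le_of_mul_le_mul_right h8 h3
      have h8 : (2 * (K : ℝ) + 1) * (2 / δ) = (2 * K + 1) / (δ / 2) := by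
        field_simp
      rw [h8, le_div_iff₀ (by linarith)]
      exact h7
    calc Ex (Pool.Agent.H49.Ent.cond p B True) (fun ω => Real.log ((FF (G ω)).card))
        ≤ Ex (Pool.Agent.H49.Ent.cond p B True)
          (fun _ => Real.log ((2 * K + 1) * (2 / δ))) := by
          unfold Ex
          refine Finset.sum_le_sum fun ω _ => ?_
          rcases (hq.nonneg ω).eq_or_lt with h1 | h1
          · rw [← h1, zero_mul, zero_mul]
          · exact mul_le_mul_of_nonneg_left (key ω h1) h1.le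
      _ = Real.log ((2 * K + 1) * (2 / δ)) := by
          unfold Ex
          rw [← Finset.sum_mul, hq.sum_one, one_mul]

end law

section cls

variable {m : ℕ}

/-- **Active digits separate the copies**: off mass `δ` the digits `Q` of two copies over `G` are more
than `K` apart, for all data `G` which are known from the exact point and from the digits `P` of all
velocities. -/
theorem ActI.sep {S : PCl m}
    (hpos : ∀ (τ : ℝ) (J : ℕ) (F : Fam m J) (A : F.Ω → Prop), S.St τ J F A → 0 < Pe F.p A)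
    {i : Fin m} {a P Q : ℝ} (hA : ActI S i a P Q) (ha : 0 < a) (hPQ : P < Q) (K : ℕ) {δ : ℝ}
    (hδ : 0 < δ) :
    Bas S (fun J F A => ∀ (Γ : Type) (G : F.Ω → Γ),
      (∀ ω ω', 0 < Pool.Agent.H49.Ent.cond F.p A True ω →
        0 < Pool.Agent.H49.Ent.cond F.p A True ω' → F.D ⌊P * J⌋₊ ω = F.D ⌊P * J⌋₊ ω' →
        F.X J ω = F.X J ω' → F.W ω = F.W ω' → G ω = G ω') →
      Pe (P1 (Pool.Agent.H49.Ent.cond F.p A True) G)
        (fun v => |(F.D ⌊Q * J⌋₊ v.1 i : ℝ) - F.D ⌊Q * J⌋₊ v.2 i| ≤ K) ≤ δ) := by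
  have hl2 : 0 < Real.log 2 := Real.log_pos (by norm_num)
  have hr : 0 < a * (Q - P) / 2 := by
    have : 0 < a * (Q - P) := mul_pos ha (by linarith)
    linarith
  obtain ⟨J₁, hJ₁⟩ := big (Real.log ((2 * K + 1) * (2 / δ)) + 1)
    (show 0 < a * (Q - P) / 2 * Real.log 2 by positivity)
  have h1 := bas_ev (hA (a * (Q - P) / 2) hr) (κ := δ / 2) (by linarith)
  have hp : Bas S (fun _ F A => 0 < Pe F.p A) := ⟨1, one_pos, 0, fun J _ F A hA => hpos 1 J F A hA⟩
  refine Bas.mono J₁ (h1.and hp) ?_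
  rintro J hJ F A ⟨h2, h3⟩ Γ G hG
  by_contra hcon
  rw [not_le] at hcon
  have hq := isLaw_cond F.isLaw h3
  obtain ⟨B, hB1, hB2⟩ := col_law hq G (fun ω => F.D ⌊Q * J⌋₊ ω i) K hδ hcon
  have hBA : Sub (fun ω => A ω ∧ B ω) A := fun ω h => h.1
  have hPB : Pe (Pool.Agent.H49.Ent.cond F.p A True) B =
      Pe F.p (fun ω => A ω ∧ B ω) / Pe F.p A := Pe_cond B
  have h4 : δ / 2 * Pe F.p A ≤ Pe F.p (fun ω => A ω ∧ B ω) := by
    rw [hPB, le_div_iff₀ h3] at hB1
    exact hB1
  have h5 := h2 (fun ω => A ω ∧ B ω) hBA h4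
  rw [Pool.K2S.Piece.cond_inter h3.ne'] at hB2
  have hAB : 0 < Pe F.p (fun ω => A ω ∧ B ω) := lt_of_lt_of_le (by positivity) h4
  have hqB := isLaw_cond F.isLaw hAB
  have h6 : CH (Pool.Agent.H49.Ent.cond F.p (fun ω => A ω ∧ B ω) True)
      (fun ω => F.D ⌊Q * J⌋₊ ω i) (fun ω => (F.D ⌊P * J⌋₊ ω, (F.X J ω, F.W ω))) ≤
      CH (Pool.Agent.H49.Ent.cond F.p (fun ω => A ω ∧ B ω) True)
        (fun ω => F.D ⌊Q * J⌋₊ ω i) G := by
    have hmono : ∀ ω, 0 < Pool.Agent.H49.Ent.cond F.p (fun ω => A ω ∧ B ω) True ω →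
        0 < Pool.Agent.H49.Ent.cond F.p A True ω := by
      intro ω hω
      obtain ⟨c1, c2, -⟩ := cond_supp F.isLaw.nonneg hω
      exact cond_pos h3 c1 c2
    refine CH_mono_cond hqB.nonneg fun ω ω' hω hω' hz => ?_
    have e1 := (Prod.ext_iff.mp hz).1
    have e2 := (Prod.ext_iff.mp (Prod.ext_iff.mp hz).2)
    exact hG ω ω' (hmono ω hω) (hmono ω' hω') e1 e2.1 e2.2
  have h7 := hJ₁ J hJ
  have h8 : (a * (Q - P) - a * (Q - P) / 2) * Real.log 2 * J =
      a * (Q - P) / 2 * Real.log 2 * J := by ring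
  linarith

end cls

end Pool.T4A95
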