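import Pool.Agent.H91.FR.QpG
import Pool.Agent.H72.OWN.ActV
import Pool.Agent.H2.GEN.Act4
import Pool.Agent.H83.REC.ActE

/-!
# The activity of the first coordinate on short intervals near zero, as a property of the windows

`ActG`: on all intervals `(P, Q)` with `Q ≤ (1/2)^k₀` and `(1/2)^p Q ≤ Q - P` the digits of the
velocity of `c 0` have at least the rate `(1/2)^k₀` given the exact point and the digits up to `P` of
all velocities. `aePG_act`, `her_act`.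
-/

set_option autoImplicit false

namespace Pool.T4A95

open Finset Real MeasureTheory
open Pool.Agent.H49.Ent Pool.Agent.H32.Dense Pool.STK Pool.KA Pool.KSAT Pool.K2S Pool.PB Pool.S6C
open Pool.GEN Pool.RCD Pool.LA91 Pool.PKG Pool.CHT Pool.GRW
open Pool.TOP (TopS)
open Pool.REX83 (actN_exists')

variable {m : ℕ}

/-- **The activity of `c 0` near zero** between the digits `P` and `Q`, at the rate `a`. -/
def ActI (S : PCl m) (i : Fin m) (a P Q : ℝ) : Prop :=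
  ∀ h : ℝ, 0 < h → Bas S (fun J F A => (a * (Q - P) - h) * Real.log 2 * J ≤
    CH (Pool.Agent.H49.Ent.cond F.p A True) (fun ω => F.D ⌊Q * J⌋₊ ω i)
      (fun ω => (F.D ⌊P * J⌋₊ ω, (F.X J ω, F.W ω))))

/-- **The activity of `c 0` near zero**, as a property of the windows: `p` bounds the ratio of the
intervals, `k₀` the scales and the rate. -/
def ActG {n : ℕ} (p k₀ : ℕ) (S : PCl n) (_ : List (Fin n) × Fin n → ℝ → ℝ → ℝ) (_ : ℝ)
    (c : ℕ → Fin n) (_ : ℝ → ℝ → ℝ) (_ : ℝ → ℝ) (_ _ : ℕ → ℝ → ℝ → ℝ) (_ : ℕ → Pool.PKG.Kg)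
    (_ : Set ℝ) (_ : ℝ) : Prop :=
  ∀ P Q : ℝ, 0 ≤ P → P < Q → Q ≤ (1 / 2) ^ k₀ → (1 / 2) ^ p * Q ≤ Q - P →
    ActI S (c 0) ((1 / 2) ^ k₀) P Q

theorem her_act (n : ℕ) : HerQ (ActG : PropG n ℕ) :=
  fun _ _ _ _ _ _ _ _ _ _ _ _ _ _ hs H P Q h1 h2 h3 h4 h hh => (H P Q h1 h2 h3 h4 h hh).sub hs

/-- **The activity of `c 0` near zero** at every window, in a subclass. -/
theorem aePG_act (n : ℕ) : AePG n (ActG : PropG n ℕ) := by
  intro hn S P r P' Λ PB PQ H hTop hF o G hG hGs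
  obtain ⟨al, g₀, s, d', e', K₁, N₁, hal, hg₀, hC⟩ := H.cl
  have hl2 : 0 < Real.log 2 := Real.log_pos (by norm_num)
  obtain ⟨S₁, Ns, hne, hsub, hN⟩ := actN_exists' hC.ne hC.pos
  have hB₀ : ActB N₁ S (cc hn o.1.1 0) := by
    rw [cc_lt hn o.1.1 (show 0 < n - 1 by omega)]
    exact hC.actb _ (o.1.2 _ rfl)
  have hB : ActB N₁ S₁ (cc hn o.1.1 0) :=
    fun a b c1 c2 c3 x hx => (hB₀ a b c1 c2 c3 x hx).sub hsub
  refine ⟨S₁, hne, hsub, Filter.Eventually.of_forall fun g _ κ _ p => ?_⟩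
  obtain ⟨r₀, h0, -, h1⟩ := Pool.OWN72.act_ptF hal hg₀ (θ := (1 / 2) ^ p) (by positivity)
  obtain ⟨k₀, hk₀⟩ := exists_pow_lt_of_lt_one (show 0 < min (min r₀ (al / 16)) 1 by
    exact lt_min (lt_min h0 (by linarith)) one_pos) (show (1 / 2 : ℝ) < 1 by norm_num)
  have k1 : (1 / 2 : ℝ) ^ k₀ ≤ r₀ := hk₀.le.trans ((min_le_left _ _).trans (min_le_left _ _))
  have k2 : (1 / 2 : ℝ) ^ k₀ ≤ al / 16 := hk₀.le.trans ((min_le_left _ _).trans (min_le_right _ _))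
  have k3 : (1 / 2 : ℝ) ^ k₀ ≤ 1 := hk₀.le.trans (min_le_right _ _)
  refine ⟨k₀, fun P Q hP hPQ hQ hθ h hh => ?_⟩
  have hQ1 : Q ≤ 1 := hQ.trans k3
  have h2 := h1 n S₁ hne ⟨1, one_pos, 0, fun J _ F A hA => hC.pos 1 J F A (hsub 1 J F A hA)⟩ Ns hN
    (cc hn o.1.1 0) N₁ hC.actm hB P Q hP hPQ (hQ.trans k1) hθ
  have h3 := Pool.SUPA.FF_le (hN.sa {cc hn o.1.1 0}) hP hPQ.le hQ1
  have h4 : (1 / 2 : ℝ) ^ k₀ * (Q - P) ≤ Ns {cc hn o.1.1 0} P Q := by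
    have := mul_le_mul_of_nonneg_right k2 (show 0 ≤ Q - P by linarith)
    linarith
  have h5 := hN.coord (fun τ J F A hA => hC.pos τ J F A (hsub τ J F A hA)) (cc hn o.1.1 0) hP
    (by linarith) (by linarith) hQ1 (h * Real.log 2) (mul_pos hh hl2)
  refine Bas.mono 0 h5 ?_
  intro J _ F A h6
  have h7 := (abs_le.1 h6).1
  have h9 : (1 / 2 : ℝ) ^ k₀ * (Q - P) * (Real.log 2 * J) ≤
      Ns {cc hn o.1.1 0} P Q * (Real.log 2 * J) :=
    mul_le_mul_of_nonneg_right h4 (by positivity)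
  linarith

end Pool.T4A95
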